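import Pool.Agent.MWGR.StmtsF

/-!
# MWGR, row JA2: the edge `Al2` is join prime
-/

set_option autoImplicit false

namespace Pool.Agent.MWGR.H60

open Pool.Agent.Helper14_MV Pool.Agent.Helper2_MV Pool.Agent.MVO Pool.Agent.MWL Pool.Agent.MWS
  Pool.Agent.MWH

/-- the blocks of the left side -/
def B0 : ℕ → List ℕ := fun j => [[0, 0, 1], [1], [0]].getD j []

/-- the blocks of the right side -/
def B1 (n : ℕ) : ℕ → List ℕ := fun j => [[0, 0, 1] ++ X n, [1], [0]].getD j []

theorem deg2 (a : ℕ → ℕ) : deg 2 a = a 0 + a 1 + a 2 := by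
  simp [deg, Finset.sum_range_succ]

theorem okB0 : OkB 2 B0 := by
  refine ⟨?_, ?_⟩
  · intro j hj c hc
    have hc' : c = 0 ∨ c = 1 := by
      interval_cases j <;> simp [B0] at hc <;> omega
    rcases hc' with h | h <;> subst h <;> simp [NS]
  · intro j hj c hc
    have hc' : c = 0 ∨ c = 1 := by
      interval_cases j <;> simp [B0] at hc <;> omega
    rw [deg2]
    rcases hc' with h | h <;> subst h <;> simp [B0]

theorem okB1 (n : ℕ) : OkB 2 (B1 n) := by
  have hL : ∀ j ≤ 2, ∀ c ∈ B1 n j, c = 0 ∨ c = 1 := by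
    intro j hj c hc
    interval_cases j
    · simp only [B1, List.getD_cons_zero, List.mem_append, List.mem_cons, List.not_mem_nil,
        or_false] at hc
      rcases hc with (h | h | h) | h
      · exact Or.inl h
      · exact Or.inl h
      · exact Or.inr h
      · exact Or.inl (List.eq_of_mem_replicate h)
    · simp [B1] at hc
      exact Or.inr hc
    · simp [B1] at hc
      exact Or.inl hc
  refine ⟨?_, ?_⟩
  · intro j hj c hc
    rcases hL j hj c hc with h | h <;> subst h <;> simp [NS]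
  · intro j hj c hc
    rw [deg2]
    rcases hL j hj c hc with h | h
    · subst h
      simp [B1]
    · subst h
      simp [B1, List.count_replicate]

/-- the invariant set -/
def AA (B : ℕ → List ℕ) : Prop :=
  ∃ s r c, 2 ≤ s ∧ 1 ≤ r ∧ 1 ≤ c ∧ B 0 = X s ++ [1] ∧ B 1 = Y r ∧ B 2 = X c

theorem notAA {n : ℕ} (hn : 1 ≤ n) : ¬ AA (B1 n) := by
  rintro ⟨s, r, c, _, _, _, h, _, _⟩
  have h1 : [0, 0, 1] ++ X n = X s ++ [1] := h
  obtain ⟨m, rfl⟩ : ∃ m, n = m + 1 := ⟨n - 1, by omega⟩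
  have h2 := congrArg List.getLast? h1
  rw [show X (m + 1) = X m ++ [0] from List.replicate_succ', ← List.append_assoc,
    List.getLast?_append, List.getLast?_append] at h2
  simp at h2

theorem ja2 (jpig : JpigStmt) (bgb : BgbStmt) (mnb : MnbStmt) (stw : StwStmt) (frm : FrmStmt)
    (imp : ImpStmt) (eal : EalStmt) (dal : DalStmt) (fal : FalStmt) (nt2 : Nt2Stmt) :
    Ja2Stmt := by
  intro n β hBG
  obtain ⟨hBas, _⟩ := bgb n β hBG
  have e0 : Ed.al2.l n = asm 2 B0 := rfl
  have e1 : Ed.al2.r n = asm 2 (B1 n) := by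
    show [0, 0, 1] ++ (X n ++ [2, 1, 3, 0]) =
      (([0, 0, 1] ++ X n) ++ 2 :: [1]) ++ 3 :: [0]
    simp
  rw [e0, e1]
  refine jpig β hBas.cap 2 B0 (B1 n) AA okB0 (okB1 n) ?_ (notAA hBG.pos) ?_ ?_
  · exact ⟨2, 1, 1, le_rfl, le_rfl, le_rfl, rfl, rfl, rfl⟩
  · rintro B B' hBB ⟨s, r, c, h1, h2, h3, h4, h5, h6⟩
    exact ⟨s, r, c, h1, h2, h3, by rw [← hBB 0 (by omega), h4], by rw [← hBB 1 (by omega), h5],
      by rw [← hBB 2 (by omega), h6]⟩
  · intro θ hle hNC hno B B' hB hB' _ hsub hRR hA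
    have hBGθ : BG n (RR θ) := (mnb n β θ hle).1 hBG
    have hnAl : ¬ Al2 n (RR θ) := by
      intro h
      apply hno
      rw [← e0, ← e1]
      exact h
    have hnE : ¬ Has n (FC.ofFIC θ) Bit.E := by
      intro h
      exact hnAl ((imp n θ).1 (eal n θ hBGθ h).1).2
    have hnD : ¬ Has n (FC.ofFIC θ) (Bit.D 0) := by
      intro h
      exact hnAl ((imp n θ).1 (dal n θ hBGθ h).1).2
    have hnF : ¬ Has n (FC.ofFIC θ) Bit.F := by
      intro h
      exact hnAl ((fal n θ hBGθ).2 ((fal n θ hBGθ).1.1 h)).2.1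
    obtain ⟨s, r, c, hs, hr, hc, h0, h1, h2⟩ := hA
    -- types of `B`
    have a0 : ty B 0 0 = s := by simp [ty, h0, List.count_replicate]
    have a1 : ty B 0 1 = 0 := by simp [ty, h1, List.count_replicate]
    have a2 : ty B 0 2 = c := by simp [ty, h2, List.count_replicate]
    have b0 : ty B 1 0 = 1 := by simp [ty, h0, List.count_replicate]
    have b1 : ty B 1 1 = r := by simp [ty, h1, List.count_replicate]
    have b2 : ty B 1 2 = 0 := by simp [ty, h2, List.count_replicate]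
    have m0 : 0 ∈ B 2 := by
      rw [h2]
      exact List.mem_replicate.2 ⟨by omega, rfl⟩
    have m1 : 1 ∈ B 0 := by
      rw [h0]
      simp
    have S0 := (stw n β θ hBas hle hNC hnD hnE 2 B B' hB hB' hRR 0 (by simp [NS])
      ⟨2, le_rfl, m0⟩).2
    have S1 := (stw n β θ hBas hle hNC hnD hnE 2 B B' hB hB' hRR 1 (by simp [NS])
      ⟨0, by omega, m1⟩).2
    -- letter 0
    have c00 : ty B' 0 0 ≠ 0 := by
      intro h
      have := ((S0 0 (by omega)).2.2.2 hnF).2 h
      omega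
    have c01 : ty B' 0 1 = 0 := ((S0 1 (by omega)).2.2.2 hnF).1 a1
    have c02 : ty B' 0 2 ≠ 0 := by
      intro h
      have := ((S0 2 le_rfl).2.2.2 hnF).2 h
      omega
    have c00' : ty B' 0 0 ≠ 1 := by
      intro h
      have := ((S0 0 (by omega)).1 (fun p hp => by omega)).1.2 h
      omega
    -- letter 1
    have d0 : ty B' 1 0 = 1 := ((S1 0 (by omega)).1 (fun p hp => by omega)).1.1 b0
    have hq : ∀ q, 1 < q → q ≤ 2 → ty B 1 q = 0 := by
      intro q h3 h4
      obtain rfl : q = 2 := by omega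
      exact b2
    obtain ⟨hd1, hd2⟩ := (S1 1 (by omega)).2.1 hq
    have d1 : ty B' 1 1 ≠ 0 := by
      intro h
      have := hd1.2 h
      omega
    have d2 : ty B' 1 2 = 0 := hd2 2 (by omega) le_rfl
    -- letters of `B'`
    have hL : ∀ j ≤ 2, ∀ e ∈ B' j, e = 0 ∨ e = 1 := by
      intro j hj e he
      obtain ⟨i, hi, hi'⟩ := hsub e ⟨j, hj, he⟩
      interval_cases i <;> simp [B0] at hi' <;> omega
    obtain ⟨s', t', hB0, hst⟩ := (frm.1 (B' 0) (hL 0 (by omega))).1 d0
    have hB1 : B' 1 = Y ((B' 1).count 1) := (frm.1 (B' 1) (hL 1 (by omega))).2.2 c01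
    have hB2 : B' 2 = X ((B' 2).count 0) := (frm.1 (B' 2) (hL 2 le_rfl)).2.1 d2
    have hr' : 1 ≤ (B' 1).count 1 := Nat.one_le_iff_ne_zero.2 d1
    have hc' : 1 ≤ (B' 2).count 0 := Nat.one_le_iff_ne_zero.2 c02
    have hst' : 2 ≤ s' + t' := by
      rw [← hst]
      have h3 : (B' 0).count 0 ≠ 0 := c00
      have h4 : (B' 0).count 0 ≠ 1 := c00'
      omega
    rcases Nat.eq_zero_or_pos t' with ht | ht
    · subst ht
      refine ⟨s', (B' 1).count 1, (B' 2).count 0, by omega, hr', hc', ?_, hB1, hB2⟩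
      rw [hB0]
      rfl
    · exfalso
      apply hnAl
      apply nt2 n θ hBGθ s s' t' c ((B' 2).count 0) r ((B' 1).count 1) hs hst' ht hc hr hr'
      have e2 : asm 2 B = X s ++ 1 :: 2 :: (Y r ++ 3 :: X c) := by
        show (B 0 ++ 2 :: B 1) ++ 3 :: B 2 = _
        rw [h0, h1, h2]
        simp
      have e3 : asm 2 B' = X s' ++ 1 :: (X t' ++ 2 :: (Y ((B' 1).count 1) ++
          3 :: X ((B' 2).count 0))) := by
        show (B' 0 ++ 2 :: B' 1) ++ 3 :: B' 2 = _
        conv_lhs => rw [hB0, hB1, hB2]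
        simp
      rw [e2, e3] at hRR
      exact hRR

end Pool.Agent.MWGR.H60
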